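import Pool.Agent.K3h1.SX.Fin

/-!
# Sections for the Fermat curves of irregular prime exponent, relative to `p`

Let `p ≥ 5` be a prime number and let `X` be the Fermat curve `x ^ p + y ^ p = 1` over `ℚ` (its smooth
projective model), with the three rational points `(0, 1)`, `(1, 0)` and the point at infinity where
`y / x = -1`. Let `i` be the index of irregularity of `p`, the number of the even numbers `k` with
`2 ≤ k ≤ p - 3` for which `p` divides the numerator of the Bernoulli number `B_k`. We assume that

  `p` does not divide the numerator of `B_(p-3)`, or `(i + 1) (i + 2) + 3 ≤ p`.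

We prove:

*Let `s` be a section of the geometrically pro-`p` fundamental group of `X` over `ℚ` which over `ℚ_p`
is given by a point of `X` over `ℚ_p`. Then this point is in the residue disc of one of the three
rational points: one of `x`, `y`, `1 / x` has at this point a value in `p ℤ_p`.*

Nothing is assumed at the other primes. The class number of the cyclotomic field may be divisible by
`p`. The theorem is stated for sections `s` of `Gal(N/F) → G_ℚ`, where `F` is a field over `ℚ` with
algebraic closure `Ω` of transcendence degree one over `ℚ` and `N` is an extension of `F` in `Ω`, and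
for elements `x`, `y` of `N` that are fixed by `s` and satisfy the equation, where `N` contains the
field `N₀ = ProP p x y` such that `Gal(N₀/ℚ(x, y))` is the geometrically pro-`p` fundamental group of
`X`. So it contains the case of `X` itself, with `F = ℚ(x, y)`, and that of the (profinite) fundamental
groups of all curves over `ℚ` with a nonconstant map to `X` and of their open subcurves
(`proP_unramified`).

For `p ≡ 1` modulo `3` the curve `X` has points over `ℚ_p` outside of these three discs (for example
with `x = -ω`, `y = -ω ^ 2`, where `ω` is a primitive cube root of unity). They are not values of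
sections over `ℚ`, as for rational points in the first case of Fermat's theorem.

Proof. Let `L` be the field of the elements of `N₀` which are fixed by `s g` for all `g` that fix the
cyclotomic field `K = ℚ(ζ)`. By the Kummer theory of `L` and the weight argument of the starting
library (project `Y158`) each quotient `(x + ξ y) / (x + y)`, `ξ ^ p = 1`, of tangent lines is
`c g ^ p` with `g` in `L` and `c` in `K` such that all valuations of `c` at the primes outside `p` are
divisible by `p`. At the prime above `p` this gives, if the point is not in one of the discs, a number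
in `K` whose ideal is a `p`-th power and which is congruent modulo `p` to a linear polynomial in `ζ`
with coefficients that are residues of the coordinates. The theorems of Kummer, Mirimanoff and
Eichler, in the form of the criterion of `MP_308fa9_nt` (`FermatCurves`), show that the coordinates
are congruent up to sign, for all three permutations, which is impossible for `p ≥ 5`.
-/

set_option autoImplicit false

open IsDedekindDomain NumberField Pool.Agent.W620.SC Pool.Agent.TH954

namespace Pool.Agent.Results.MP_c1dca2_ag.FermatCurvesOfIrregularExponent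

/-- The maximal geometrically pro-`p` unramified extension `N₀` of `ℚ(x, y)` in `Ω`: the compositum of
the finite Galois extensions in `Ω` of `ℚ̄(x, y)` whose degree is a power of `p` and in which no
valuation ring over `ℚ̄` ramifies. -/
noncomputable def ProP (p : ℕ) {Ω : Type} [Field Ω] [Algebra ℚ Ω] (x y : Ω) : Set Ω :=
  Pool.Agent.Y157.PS.geomPro p ℚ (IntermediateField.adjoin ℚ {x, y}) Ω

/-- The closure of `ℚ` in the completion `K_v` of a number field `K` at a place `v`. For the prime `v`
above `p` of the cyclotomic field this is the field `ℚ_p`. -/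
noncomputable def Qp {K : Type} [Field K] [NumberField K] (v : HeightOneSpectrum (𝓞 K)) :
    Subfield (v.adicCompletion K) :=
  (algebraMap ℚ (v.adicCompletion K)).fieldRange.topologicalClosure

/-- `x ^ p + y ^ p = 1`, the element `x` is transcendental over `ℚ`, and `Ω` is algebraic over
`ℚ(x)`. -/
def OnFermat (p : ℕ) {Ω : Type} [Field Ω] [Algebra ℚ Ω] (x y : Ω) : Prop :=
  Transcendental ℚ x ∧ Algebra.IsAlgebraic (IntermediateField.adjoin ℚ {x}) Ω ∧
    x ^ p + y ^ p = 1

/-- The index of irregularity of `p`: the number of the even `k` with `2 ≤ k ≤ p - 3` for which `p`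
divides the numerator of the Bernoulli number `B_k`. -/
def index (p : ℕ) : ℕ :=
  ((Finset.range p).filter fun k => Even k ∧ 2 ≤ k ∧ k + 3 ≤ p ∧ (p : ℤ) ∣ (bernoulli k).num).card

/-- `p` does not divide the numerator of `B_(p-3)`, or `(i + 1) (i + 2) + 3 ≤ p` for the index of
irregularity `i`. -/
def Criterion (p : ℕ) : Prop :=
  ¬ (p : ℤ) ∣ (bernoulli (p - 3)).num ∨ (index p + 1) * (index p + 2) + 3 ≤ p

/-- One of the elements `x`, `y`, `x⁻¹` has at the place `w` a value in `p ℤ_p`: an element of `ℚ_p` of
absolute value less than one. -/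
def InDisc {K : Type} [Field K] [NumberField K] (v : HeightOneSpectrum (𝓞 K)) {N : Type} [Field N]
    [Algebra ℚ N] (w : Plc ℚ N (AlgebraicClosure (v.adicCompletion K))) (x y : N) : Prop :=
  ∃ t : v.adicCompletion K, t ∈ Qp v ∧ Valued.v t < (1 : WithZero (Multiplicative ℤ)) ∧
    (w.val x (algebraMap _ _ t) ∨ w.val y (algebraMap _ _ t) ∨ w.val x⁻¹ (algebraMap _ _ t))

/-- If `x`, `y` are in `F`, the extension `N₀` is contained in the maximal extension of `F` which is
unramified at a set `U` of valuation rings over `ℚ`; so the theorem applies to the fundamental group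
of every curve with function field `F`. -/
theorem proP_unramified {F Ω : Type} [Field F] [Field Ω] [Algebra ℚ F] [Algebra F Ω]
    [Algebra ℚ Ω] [IsScalarTower ℚ F Ω] [IsAlgClosed Ω] [Algebra.IsAlgebraic F Ω] (p : ℕ)
    [Fact p.Prime] (x y : F) (hx : Transcendental ℚ x)
    (hF : Algebra.IsAlgebraic (IntermediateField.adjoin ℚ {x}) F) (U : Set (ValuationSubring F))
    (hU : ∀ O ∈ U, ∀ c : ℚ, algebraMap ℚ F c ∈ O) :
    ProP p (algebraMap F Ω x) (algebraMap F Ω y) ⊆ unramified F Ω U :=
  fun z hz => Pool.Agent.Y158.FQ.geomPro_unr' p x hx hF _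
    (IntermediateField.subset_adjoin ℚ _ (by simp)) U hU z
    ((Pool.Agent.Y158.FQ.geomPro_base (k := ℚ) (K := ℚ) (X := x) (Y := y) (c := 1) (c' := 1)
      (one_mem _) (one_mem _) one_ne_zero one_ne_zero (by rw [one_mul]) (by rw [one_mul]) z).2 hz)

end Pool.Agent.Results.MP_c1dca2_ag.FermatCurvesOfIrregularExponent

open Pool.Agent.Results.MP_c1dca2_ag.FermatCurvesOfIrregularExponent in
/-- **Sections for the Fermat curves of irregular prime exponent, relative to `p`.** Let `p ≥ 5` be a
prime number with `p ∤ num B_(p-3)` or `(i + 1) (i + 2) + 3 ≤ p`, let `s` be a section of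
`Gal(N/F) → G_ℚ` and let `x`, `y` be elements of `N`, fixed by `s`, on the Fermat curve
`x ^ p + y ^ p = 1`, where `N` contains `ProP p x y`. Let `w` be a place of `N` with values in the
algebraic closure of `ℚ_p` that gives `s` over `ℚ_p`. Then one of `x`, `y`, `1 / x` has at `w` a
value in `p ℤ_p`. -/
theorem Pool.Agent.Results.MP_c1dca2_ag.FermatCurvesOfIrregularExponent.result
    (p : ℕ) [hp : Fact p.Prime] (h5 : 5 ≤ p) (hB : Criterion p)
    (K : Type) [Field K] [NumberField K] [hK : IsCyclotomicExtension {p} ℚ K]
    (v : HeightOneSpectrum (𝓞 K)) (hv : (p : 𝓞 K) ∈ v.asIdeal)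
    (F Ω B : Type) [Field F] [Field Ω] [Field B] [Algebra ℚ F] [Algebra F Ω] [Algebra ℚ Ω]
    [Algebra ℚ B] [IsScalarTower ℚ F Ω] [IsAlgClosed Ω] [Algebra.IsAlgebraic F Ω]
    [IsAlgClosure ℚ B] (N : IntermediateField F Ω) (s : GalSection ℚ F N B) (x y : N)
    (hfix : ∀ g : B ≃ₐ[ℚ] B, s.s g x = x ∧ s.s g y = y) (hc : OnFermat p (x : Ω) (y : Ω))
    (hN : ProP p (x : Ω) (y : Ω) ⊆ N)
    (w : Plc ℚ N (AlgebraicClosure (v.adicCompletion K))) (hw : s.GivenBy (Qp v) w) :
    InDisc v w x y := by
  obtain ⟨hx, hΩ, hxy⟩ := hc
  obtain ⟨cy⟩ := Pool.Agent.Y978.WQ.cyc_aux p K (hC := hK) (by omega)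
  have hvl : v = Pool.Agent.Y158.KL.lam cy.prim := by
    by_contra hne
    exact Pool.Agent.Y158.GR.ell_notMem cy.prim hne hv
  subst hvl
  have hxy' : x ^ p + y ^ p = 1 := by
    apply (algebraMap N Ω).injective
    rw [map_add, map_pow, map_pow, map_one]
    exact hxy
  obtain ⟨t, h1, h2, h3⟩ := Pool.Agent.K3h1.SX.mainFin cy.prim h5 cy rfl (by
      rcases hB with h | h
      · refine Or.inl fun h1 => h ?_
        exact ((Finset.mem_filter.1 h1).2).2.2.2
      · exact Or.inr h) N x y hx hΩ hxy' (fun z hz => hN hz) s (fun g => (hfix g).1)
    (fun g => (hfix g).2) w hw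
  exact ⟨t, h1, h2, h3⟩
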