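import Pool.Agent.K3h82.FT.GRat
import Pool.Agent.K3h82.FT.Inert
import Pool.Agent.Y158.FQ.Fin3

/-!
# Sections for the curves `g(x) ^ ℓ + y ^ ℓ = a ^ ℓ` over `ℚ` and `ℚ(ζ_ℓ)`, relative to `ℓ`

Let `ℓ` be an odd regular prime, that is, `ℓ` does not divide the class number of `K = ℚ(ζ_ℓ)`, let
`v` be the place of `K` above `ℓ`, and let `p` be a prime number which is a primitive root modulo
`ℓ ^ 2`: it is inert in `K`, and `ℓ ^ 2` does not divide `p ^ (ℓ - 1) - 1`.  Let `g` be a monic polynomial
over `K` of degree `D ≥ 1`, let `a` be a nonzero element of `K`, and let `X` be the smooth projective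
curve with the equation

  `g(x) ^ ℓ + y ^ ℓ = a ^ ℓ`.

We assume (`Good`): the polynomial `f = g ^ ℓ - a ^ ℓ` is separable, its Galois group over `K` is an
`ℓ`-group, it is integral and separable modulo all places that do not divide `ℓ p`, and the roots of `g`
in the completion `K_v` are in `K`.  This is the case for `g = x ^ (ℓ ^ m)` and for every `a` that is
a unit outside `ℓ p`, that is, for the curves

  `x ^ (ℓ ^ (m + 1)) + y ^ ℓ = a ^ ℓ`,   `m ≥ 0`,

of genus `(ℓ - 1) (ℓ ^ (m + 1) - 2) / 2`, for example with an integer `a = ± ℓ ^ i p ^ j` (third part of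
the theorem).  We prove in particular:

*Let `s` be a section of the geometrically pro-`ℓ` fundamental group `π₁(X)^(ℓ) → G_K` which over `K_v`
is given by a local point.  Then `s` is the section of one of the `K`-rational points with `g(x) = 0` or
`y = 0` or at infinity.*

*If `g` and `a` are over `ℚ`: let `s` be a section of `π₁(X)^(ℓ) → G_ℚ` which over `ℚ_ℓ` is given by a
local point.  Then `s` is the section of one of the rational points `(r, 0)` with `g(r) = a`, `(r, a)` with
`g(r) = 0`, or of the rational point at infinity.*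

Nothing is assumed at the other places.  Some condition at `ℓ` is natural for pro-`ℓ` sections: Hoshi
constructed, for regular `ℓ`, nongeometric pro-`ℓ` sections of curves over number fields.

For `g = x` this is known (the Fermat curve, starting files `KummerProEll` and `FermatQuotients`).  The
theorem is stated for sections `s` of `Gal(N/F)`, where `F` is a function field of transcendence degree
one and `N` is an extension of `F`, for elements `x`, `y` of `N` that are fixed by `s` and satisfy the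
equation, where `N` contains the field `N₀` such that `Gal(N₀/K(x, y))` is the geometrically pro-`ℓ`
fundamental group of `X`.  So it contains the case of `X` itself, with `F = K(x, y)`, and that of the
(profinite) fundamental groups of all curves with a nonconstant map to `X` and of their open subcurves.

The field `ℚ_ℓ` enters as a field `L` whose image in the algebraic closure `C` of `K_v` is that of the
closure of `ℚ` in the completion `K_v` of `K = ℚ(ζ_ℓ)` at the place `v` above `ℓ` (`IsQell`).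

Proof.  The functions `g(x) / a` and `y / a` define a map to the Fermat curve of degree `ℓ`, and its
pro-`ℓ` tower is contained in that of `X` (`SE.mono`).  By the theorem for the Fermat curve (`genMain`,
the starting file `KummerProEll`, which carries out Kummer's proof for sections), the local point has
`g(x) = 0` or `y = 0` or is at infinity (`gVal`).  Let `K'` be the splitting field of `f` over `K`.  Its
Galois group is an `ℓ`-group and it is unramified outside `ℓ p`.  By Kummer theory, Kummer's lemma and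
the condition on `p` the Galois group of `K_v` maps onto `Gal(K'/K)`, so that the roots of `f` in `K_v`
are in `K`, and the local point is a `K`-rational point (`gPoint`).  Over `K'`, rigidity of sections
which are locally given by a point is used, and `G_K` is generated by `G_{K'}` and the decomposition
group at `v` (`ptUP`, a form of our theorem `OnePlaceTowers` of `MP_2f3286_ag`).  Sections over `ℚ` are
restricted to `K`; as `ℓ` is totally ramified in `K`, the group `G_ℚ` is generated by `G_K` and the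
decomposition group at `ℓ` (`gQ`).
-/

set_option autoImplicit false

open Polynomial Pool.Agent.W620.SC Pool.Agent.TH954 IsDedekindDomain NumberField

namespace Pool.Agent.Results.MP_c1dca2_ag.FermatTowers

/-- The maximal geometrically pro-`ℓ` unramified extension `N₀` of `k(x, y)` in `Ω`: the compositum of
the finite Galois extensions in `Ω` of `k̄(x, y)` whose degree is a power of `ℓ` and in which no
valuation ring over `k̄` ramifies. -/
noncomputable def ProEll (ℓ : ℕ) (k : Type) {Ω : Type} [Field k] [Field Ω] [Algebra k Ω] (x y : Ω) :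
    Set Ω :=
  Pool.Agent.Y157.PS.geomPro ℓ k (IntermediateField.adjoin k {x, y}) Ω

/-- The field `L` has in `C` the same image as the closure of `ℚ` in the completion `K_v` of the number
field `K` at `v`.  For `v ∣ ℓ` and `K = ℚ(ζ_ℓ)` this means that `L` is the field `ℚ_ℓ`. -/
def IsQell {K : Type} [Field K] [NumberField K] (v : HeightOneSpectrum (𝓞 K)) (L C : Type) [Field L]
    [Field C] [Algebra (v.adicCompletion K) C] [Algebra L C] : Prop :=
  ∀ z : C, (∃ r : L, algebraMap L C r = z) ↔
    ∃ c ∈ closure (Set.range (algebraMap ℚ (v.adicCompletion K))),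
      algebraMap (v.adicCompletion K) C c = z

/-- The prime number `p ≠ ℓ` is inert in `K` and `ℓ ^ 2` does not divide `p ^ (ℓ - 1) - 1`.  For
`K = ℚ(ζ_ℓ)` this means that `p` is a primitive root modulo `ℓ ^ 2`. -/
def Inert (ℓ p : ℕ) (K : Type) [Field K] [NumberField K] : Prop :=
  p.Prime ∧ p ≠ ℓ ∧ (Ideal.span {(p : 𝓞 K)}).IsPrime ∧ ¬ (ℓ : ℤ) ^ 2 ∣ (p : ℤ) ^ (ℓ - 1) - 1

/-- The polynomial `g ^ ℓ - a ^ ℓ`, whose roots are the branch points. -/
noncomputable def branch (ℓ : ℕ) {K : Type} [Field K] (g : K[X]) (a : K) : K[X] :=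
  g ^ ℓ - C (a ^ ℓ)

/-- The coefficients of `q` are integral at `w`. -/
def IntegralAt {K : Type} [Field K] [NumberField K] (w : HeightOneSpectrum (𝓞 K)) (q : K[X]) : Prop :=
  ∀ n, w.valuation K (q.coeff n) ≤ 1

/-- The coefficients of `f` are integral at `w`, and `f` is separable modulo `w` (for monic `f` this
says that the discriminant of `f` is a unit at `w`). -/
def SeparableAt {K : Type} [Field K] [NumberField K] (w : HeightOneSpectrum (𝓞 K)) (f : K[X]) :
    Prop :=
  IntegralAt w f ∧ ∃ u t : K[X], IntegralAt w u ∧ IntegralAt w t ∧ u * f + t * derivative f = 1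

/-- The conditions on `g` and `a`, for an extension `L` of `K`: `g` is monic of positive degree, `a ≠ 0`,
the polynomial `g ^ ℓ - a ^ ℓ` is separable, its Galois group is an `ℓ`-group, it is integral and
separable modulo the places that do not divide `ℓ p`, and the roots of `g` in `L` are in `K`. -/
def Good (ℓ p : ℕ) {K : Type} [Field K] [NumberField K] (L : Type) [Field L] [Algebra K L] (g : K[X])
    (a : K) : Prop :=
  g.Monic ∧ g.natDegree ≠ 0 ∧ a ≠ 0 ∧ (branch ℓ g a).Separable ∧ IsPGroup ℓ (branch ℓ g a).Gal ∧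
  (∀ w : HeightOneSpectrum (𝓞 K), (ℓ : 𝓞 K) ∉ w.asIdeal → (p : 𝓞 K) ∉ w.asIdeal →
    SeparableAt w (branch ℓ g a)) ∧
  ∀ c : L, aeval c g = 0 → ∃ r : K, algebraMap K L r = c

/-- The elements `x`, `y` of `Ω` satisfy the equation `g(x) ^ ℓ + y ^ ℓ = a ^ ℓ`, the element `x` is
transcendental over `k`, and `Ω` is algebraic over `k(x)`. -/
def OnCurve (ℓ : ℕ) {k Ω : Type} [Field k] [Field Ω] [Algebra k Ω] (g : k[X]) (a : k) (x y : Ω) :
    Prop :=
  Transcendental k x ∧ Algebra.IsAlgebraic (IntermediateField.adjoin k {x}) Ω ∧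
    aeval x g ^ ℓ + y ^ ℓ = algebraMap k Ω a ^ ℓ

/-- The place `w` is above a `k`-rational point with `y = 0` (and `g(x) ^ ℓ = a ^ ℓ`), or `g(x) = 0` (and
`y ^ ℓ = a ^ ℓ`), or at infinity, where `y / x ^ D`, with `D = deg g`, has a value `t` with
`t ^ ℓ = -1`. -/
def AtPoint (ℓ : ℕ) {k N C : Type} [Field k] [Field N] [Field C] [Algebra k N] [Algebra k C]
    (g : k[X]) (a : k) (w : Plc k N C) (x y : N) : Prop :=
  (∃ r : k, g.eval r ^ ℓ = a ^ ℓ ∧ w.val x (algebraMap k C r) ∧ w.val y 0) ∨
  (∃ r t : k, g.eval r = 0 ∧ t ^ ℓ = a ^ ℓ ∧ w.val x (algebraMap k C r) ∧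
    w.val y (algebraMap k C t)) ∨
  (∃ t : k, t ^ ℓ = -1 ∧ w.val x⁻¹ 0 ∧ w.val (y / x ^ g.natDegree) (algebraMap k C t))

section sections

variable (k F : Type) {N : Type} (B L C : Type) [Field k] [Field F] [Field N] [Field B] [Field L]
  [Field C] [Algebra F N] [Algebra k N] [Algebra k B] [Algebra L C] [Algebra k C]

/-- If a place `w` of `N` with values in `C` gives the section `s` of `Gal(N/F) → G_k` over `L`, where
`s` fixes `x` and `y`, then `w` is above a `k`-rational point with `g(x) = 0` or `y = 0` or at infinity,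
and for all `σ` and all `z` in `S` the element `s σ z` is in the valuation ring of `w` if and only if
`z` is. -/
def Geometric (ℓ : ℕ) (g : k[X]) (a : k) (S : Set N) (x y : N) : Prop :=
  ∀ (s : GalSection k F N B) (w : Plc k N C), (∀ σ, s.s σ x = x ∧ s.s σ y = y) → s.GivenBy L w →
    AtPoint ℓ g a w x y ∧ ∀ σ, ∀ z ∈ S, s.s σ z ∈ w.W ↔ z ∈ w.W

end sections

/-- The extension `ProEll ℓ k x y` of `k(x, y)`, as a subset of `N`. -/
def Tower (ℓ : ℕ) (k : Type) {F Ω : Type} [Field k] [Field F] [Field Ω] [Algebra F Ω] [Algebra k Ω]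
    {N : IntermediateField F Ω} (x y : N) : Set N :=
  {z | (z : Ω) ∈ ProEll ℓ k (x : Ω) (y : Ω)}

/-- Every section over `k` for the curve `g(x) ^ ℓ + y ^ ℓ = a ^ ℓ` which over `L` is given by a point is
the section of a `k`-rational point with `g(x) = 0` or `y = 0` or at infinity. -/
def Sections (ℓ : ℕ) (k L C : Type) [Field k] [Field L] [Field C] [Algebra k C] [Algebra L C]
    (g : k[X]) (a : k) : Prop :=
  ∀ (F Ω B : Type) [Field F] [Field Ω] [Field B] [Algebra k F] [Algebra F Ω] [Algebra k Ω]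
    [Algebra k B] [IsScalarTower k F Ω] [IsAlgClosed Ω] [Algebra.IsAlgebraic F Ω]
    [IsAlgClosure k B] (N : IntermediateField F Ω) (x y : N),
    OnCurve ℓ g a (x : Ω) (y : Ω) → ProEll ℓ k (x : Ω) (y : Ω) ⊆ N →
    Geometric k F B L C ℓ g a (Tower ℓ k x y) x y

/-- Sections over `K`, for the curves `g(x) ^ ℓ + y ^ ℓ = a ^ ℓ` with the conditions `Good`. -/
def OverK (ℓ p : ℕ) {K : Type} [Field K] [NumberField K] (v : HeightOneSpectrum (𝓞 K)) : Prop :=
  ∀ (C : Type) [Field C] [Algebra K C] [Algebra (v.adicCompletion K) C]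
    [IsScalarTower K (v.adicCompletion K) C] [IsAlgClosure (v.adicCompletion K) C]
    (g : K[X]) (a : K), Good ℓ p (v.adicCompletion K) g a →
    Sections ℓ K (v.adicCompletion K) C g a

/-- Sections over `ℚ`, for the curves `g(x) ^ ℓ + y ^ ℓ = a ^ ℓ` over `ℚ` with the conditions `Good`. -/
def OverQ (ℓ p : ℕ) {K : Type} [Field K] [NumberField K] (v : HeightOneSpectrum (𝓞 K)) : Prop :=
  ∀ (L C : Type) [Field L] [Field C] [Algebra ℚ C] [Algebra (v.adicCompletion K) C] [Algebra L C]
    [IsAlgClosure (v.adicCompletion K) C] (g : ℚ[X]) (a : ℚ), IsQell v L C →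
    Good ℓ p (v.adicCompletion K) (g.map (algebraMap ℚ K)) (algebraMap ℚ K a) →
    Sections ℓ ℚ L C g a

/-- The conditions `Good` are satisfied for the powers `x ^ (ℓ ^ m)` and the units outside `ℓ p`. -/
def Powers (ℓ p : ℕ) {K : Type} [Field K] [NumberField K] (v : HeightOneSpectrum (𝓞 K)) : Prop :=
  ∀ (m : ℕ) (a : K), a ≠ 0 → (∀ w : HeightOneSpectrum (𝓞 K), (ℓ : 𝓞 K) ∉ w.asIdeal →
    (p : 𝓞 K) ∉ w.asIdeal → w.valuation K a = 1) → Good ℓ p (v.adicCompletion K) (X ^ (ℓ ^ m)) a

/-- If `x`, `y` are in `F`, the extension `N₀` is contained in the maximal extension of `F` which is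
unramified at a set `U` of valuation rings over `k`; so the theorem applies to the fundamental group
of every curve with function field `F`. -/
theorem proEll_unramified {k F Ω : Type} [Field k] [CharZero k] [Field F] [Field Ω] [Algebra k F]
    [Algebra F Ω] [Algebra k Ω] [IsScalarTower k F Ω] [IsAlgClosed Ω] [Algebra.IsAlgebraic F Ω]
    (ℓ : ℕ) [Fact ℓ.Prime] (x y : F) (hx : Transcendental k x)
    (hF : Algebra.IsAlgebraic (IntermediateField.adjoin k {x}) F) (U : Set (ValuationSubring F))
    (hU : ∀ O ∈ U, ∀ c : k, algebraMap k F c ∈ O) :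
    ProEll ℓ k (algebraMap F Ω x) (algebraMap F Ω y) ⊆ unramified F Ω U :=
  fun z hz => Pool.Agent.Y158.FQ.geomPro_unr' ℓ x hx hF _
    (IntermediateField.subset_adjoin k _ (by simp)) U hU z
    ((Pool.Agent.Y158.FQ.geomPro_base (k := k) (K := k) (X := x) (Y := y) (c := 1) (c' := 1)
      (one_mem _) (one_mem _) one_ne_zero one_ne_zero (by rw [one_mul]) (by rw [one_mul]) z).2 hz)

/-- the automorphisms of a splitting field, if the Galois group is an `ℓ`-group -/
theorem gal_any {K : Type} [Field K] {ℓ : ℕ} {f : K[X]} (hG : IsPGroup ℓ f.Gal) (K' : Type)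
    [Field K'] [Algebra K K'] (hadj : Algebra.adjoin K (f.rootSet K') = ⊤)
    (hsp : (f.map (algebraMap K K')).Splits) (σ : K' ≃ₐ[K] K') : ∃ n : ℕ, σ ^ (ℓ ^ n) = 1 := by
  haveI : IsSplittingField K K' f := ⟨hsp, hadj⟩
  let φ : K' ≃ₐ[K] f.SplittingField := IsSplittingField.algEquiv K' f
  obtain ⟨n, hn⟩ := hG (AlgEquiv.autCongr φ σ)
  refine ⟨n, (AlgEquiv.autCongr φ).injective ?_⟩
  rw [map_one, map_pow]
  exact hn

end Pool.Agent.Results.MP_c1dca2_ag.FermatTowers

open Pool.Agent.Results.MP_c1dca2_ag.FermatTowers in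
/-- **Sections for the curves `g(x) ^ ℓ + y ^ ℓ = a ^ ℓ` over `ℚ` and `ℚ(ζ_ℓ)`, relative to `ℓ`.**
Let `ℓ` be an odd prime that does not divide the class number of `K = ℚ(ζ_ℓ)`, and let `v` be the place
of `K` above `ℓ`.  There are prime numbers `p ≠ ℓ` which are inert in `K` and such that `ℓ ^ 2` does not
divide `p ^ (ℓ - 1) - 1`.  Let `p` be such a prime number.

1. If `g`, `a` over `K` satisfy the conditions `Good`, then every geometrically pro-`ℓ` section over `K`
for the curve `g(x) ^ ℓ + y ^ ℓ = a ^ ℓ` which over `K_v` is given by a point is the section of a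
`K`-rational point with `g(x) = 0` or `y = 0` or at infinity.

2. If `g`, `a` are over `ℚ` and satisfy the conditions `Good` over `K`, then every geometrically
pro-`ℓ` section over `ℚ` for this curve which over `ℚ_ℓ` is given by a point is the section of a rational
point with `g(x) = 0` or `y = 0` or at infinity.

3. The conditions `Good` are satisfied for `g = x ^ (ℓ ^ m)`, `m ≥ 0`, and the elements `a ≠ 0` of `K` which
are units at the places that do not divide `ℓ p`. -/
theorem Pool.Agent.Results.MP_c1dca2_ag.FermatTowers.result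
    (ℓ : ℕ) [Fact ℓ.Prime] (hℓ : ℓ ≠ 2) (K : Type) [Field K] [NumberField K]
    [IsCyclotomicExtension {ℓ} ℚ K] (hreg : ¬ ℓ ∣ classNumber K)
    (v : HeightOneSpectrum (𝓞 K)) (hv : (ℓ : 𝓞 K) ∈ v.asIdeal) :
    (∀ p : ℕ, Inert ℓ p K → OverK ℓ p v ∧ OverQ ℓ p v ∧ Powers ℓ p v) ∧ ∃ p : ℕ, Inert ℓ p K := by
  refine ⟨?_, Pool.Agent.K3h82.FT.exists_inert K hℓ⟩
  rintro p ⟨hp, hpℓ, hpK, hpp⟩
  have hℓp : ℓ.Prime := Fact.out
  have hℓ2 : 2 < ℓ := lt_of_le_of_ne hℓp.two_le (Ne.symm hℓ)
  have hodd : Odd ℓ := hℓp.odd_of_ne_two hℓ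
  have hcop : (classNumber K).Coprime ℓ := ((Nat.Prime.coprime_iff_not_dvd hℓp).2 hreg).symm
  have hKL := Pool.Agent.Y158.KL.kummer_lemma (IsCyclotomicExtension.zeta_spec ℓ ℚ K) hℓ2 hcop
  obtain ⟨ζ, hζ⟩ : ∃ ζ : K, IsPrimitiveRoot ζ ℓ := ⟨_, IsCyclotomicExtension.zeta_spec ℓ ℚ K⟩
  have hvl : v = Pool.Agent.Y158.KL.lam hζ := by
    by_contra hne
    exact Pool.Agent.Y158.GR.ell_notMem hζ hne hv
  subst hvl
  refine ⟨?_, ?_, ?_⟩
  · intro C _ _ _ _ _ g a hga
    obtain ⟨hg, hD, ha, hs, hG, hgood, hroot⟩ := hga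
    intro F Ω B _ _ _ _ _ _ _ _ _ _ _ N x y hc hN s w hfix hw
    obtain ⟨hx, hΩ, hxy⟩ := hc
    haveI : IsScalarTower K N Ω := IsScalarTower.of_algebraMap_eq fun _ => rfl
    obtain ⟨h1, h2⟩ := Pool.Agent.K3h82.FT.gK hζ hodd hcop hKL hp hpK hpp hpℓ hg hD ha hs hroot
      (fun K' _ _ hadj hsp σ => gal_any hG K' hadj hsp σ) hgood N s x y
      (fun g => (hfix g).1) (fun g => (hfix g).2) hx hΩ (by
        apply (algebraMap N Ω).injective
        rw [map_add, map_pow, map_pow, map_pow, ← aeval_algebraMap_apply]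
        exact hxy) hN w hw
    refine ⟨?_, h2⟩
    unfold AtPoint
    rw [div_eq_mul_inv, ← inv_pow]
    exact h1
  · intro L C _ _ _ _ _ _ g a hL hga
    obtain ⟨hg, hD, ha, hs, hG, hgood, hroot⟩ := hga
    intro F Ω B _ _ _ _ _ _ _ _ _ _ _ N x y hc hN s w hfix hw
    obtain ⟨hx, hΩ, hxy⟩ := hc
    have hg' : g.Monic := monic_of_injective (algebraMap ℚ K).injective hg
    have hD' : g.natDegree ≠ 0 := by rwa [natDegree_map] at hD
    have ha' : a ≠ 0 := (_root_.map_ne_zero _).1 ha
    have hw' : s.GivenBy (Pool.Agent.Y158.FQ.Qc (Pool.Agent.Y158.KL.lam hζ)) w := by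
      intro σ τ h
      refine hw (AlgEquiv.ofRingEquiv (f := (σ : C ≃+* C)) fun r => ?_) τ h
      obtain ⟨c, hc, hcr⟩ := (hL _).1 ⟨r, rfl⟩
      rw [← hcr]
      exact σ.commutes ⟨c, hc⟩
    obtain ⟨h1, h2⟩ := Pool.Agent.K3h82.FT.gQ hζ hodd hcop hKL hp hpK hpp hpℓ hg' hD' ha' hs hroot
      (fun K' _ _ hadj hsp σ => gal_any hG K' hadj hsp σ) hgood N s x y
      (fun g => (hfix g).1) (fun g => (hfix g).2) hx hΩ hxy hN w hw'
    refine ⟨?_, h2⟩
    unfold AtPoint
    rw [div_eq_mul_inv, ← inv_pow]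
    rcases h1 with ⟨r, h3, h4, h5⟩ | ⟨r, h3, h4, h5⟩ | ⟨h3, h4⟩
    · exact Or.inl ⟨r, by rw [h3], h4, h5⟩
    · exact Or.inr (Or.inl ⟨r, a, h3, rfl, h4, h5⟩)
    · exact Or.inr (Or.inr ⟨-1, hodd.neg_one_pow, h3, by rwa [map_neg, map_one]⟩)
  · intro m a ha0 ha
    have hb : branch ℓ (X ^ (ℓ ^ m)) a = X ^ (ℓ ^ (m + 1)) - C (a ^ ℓ) := by
      unfold branch
      rw [← pow_mul, ← pow_succ]
    have hℓ0 : ℓ ≠ 0 := hℓp.ne_zero
    refine ⟨monic_X_pow _, ?_, ha0, ?_, ?_, ?_, ?_⟩
    · rw [natDegree_X_pow]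
      exact pow_ne_zero _ hℓ0
    · rw [hb]
      refine separable_X_pow_sub_C _ ?_ (pow_ne_zero _ ha0)
      rw [Nat.cast_pow]
      exact pow_ne_zero _ (by exact_mod_cast hℓ0)
    · rw [hb]
      intro σ
      exact ⟨m + 1, Pool.Agent.K3h82.FT.gal_pow_ell hℓ0 hζ (m + 1) (a ^ ℓ) rfl
        (SplittingField.adjoin_rootSet _) σ⟩
    · intro w h1 h2
      rw [hb]
      exact Pool.Agent.K3h82.FT.sep_pow m (pow_ne_zero _ ha0) h1 (by
        rw [map_pow, ha w h1 h2, one_pow])
    · intro c hc
      rw [map_pow, aeval_X] at hc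
      refine ⟨0, ?_⟩
      rw [map_zero, pow_eq_zero_iff (pow_ne_zero _ hℓ0) |>.1 hc]
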