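import Pool.Agent.K3h48.MN.Ext

/-!
# Everywhere locally soluble superelliptic curves of every exponent without sections

Let `ℓ` be any prime number, let `p ≠ q` be primes and let `χ`, `ψ` be surjective characters
`(ℤ/p)^* → ℤ/ℓ`, `(ℤ/q)^* → ℤ/ℓ` such that `q` and `-1` are `ℓ`-th powers modulo `p` and `p` and
`-1` are `ℓ`-th powers modulo `q`.  Through `Gal(ℚ(ζ_{pq})/ℚ) = (ℤ/pq)^*` the characters `χ` and
`χ^j ψ` cut out `ℓ + 1` cyclic fields `K_i` of degree `ℓ`.  Let `k` be a number field and `f` a
product of different monic irreducible nonlinear polynomials over `k` each of which has a root in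
one of the algebras `k ⊗ K_i = k[x]/(P_i)`, every `i` occurring.  Let `a ∈ k^*` be such that for
some `m ≠ 0` the sum `∑ v_r(N a) χ(r)` over the primes `r` with `ψ(r) = m χ(r)` is not zero modulo
`ℓ`, where `N` is the norm from `k` to `ℚ`.

Then the curve `a y^n = f(x)` has points over all completions of `k`, for every `n` divisible by
`ℓ`, but its fundamental group has no section, over `k` and over every finite extension of `k` of
degree prime to `ℓ`.  So over these fields both sides of the section conjecture are empty, for the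
smooth projective models if `ℓ` divides the number of factors belonging to each `K_i`, and in
general for the affine curves.

For every prime `ℓ` there are infinitely many such `(p, q)`.  For fixed `p`, `q`, `χ`, `ψ` and every
number field `k` of degree prime to `ℓ` the set of natural numbers `a` that violate the condition
has the natural density `ℓ^{-(ℓ-1)}`.

The fundamental group is described through valuations.  Let `U` be a smooth geometrically connected
curve over `k` with function field `F`, let `Ω` be an algebraic closure of `F`, and let `F_U` be the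
maximal extension of `F` inside `Ω` which is unramified over the closed points of `U`, that is, over
their local rings, which are valuation rings of `F`.  Then `π₁(U) = Gal(F_U/F)`, and the map
`π₁(U) → G_k` is the restriction of automorphisms to the algebraic closure of `k` in `Ω`.

Proof.  Let `θ_i` generate `K_i` and let the roots of the factors belonging to `K_i` be
`h(θ_i)`, `h ∈ H_i`, and their conjugates.  The divisor of `z_i = ∏_{h ∈ H_i} (x - h(θ_i))` on the
curve `a y^ℓ = f(x)` is divisible by `ℓ`, so the `ℓ`-th root of `z_i` lies in `F_U`.  A section and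
Hilbert 90 give `a = ρ^ℓ ∏_i N(c_i)` with `ρ ∈ k` and `c_i ∈ k(θ_i)`, and taking norms one gets the
same over `ℚ` for `N a`.  For `c ∈ K_i` the invariant `∑ v_r(N c) χ(r)`, over `ψ(r) = m χ(r)`, is
zero: if `K_i` is not the field in which these primes split, then they are inert and the valuations
are divisible by `ℓ`.  If it is that field, then `χ(r)` vanishes up to a multiple of `v_r` for all
other primes `r ≠ p, q`, so the sum is the sum of `v_r(N c) χ(r)` over all `r ≠ p, q`, which is zero
because norms of units at `p` are `ℓ`-th powers modulo `p` and uniformisers at `p` and `q` have the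
norms `p` and `q` up to norms of units.  Locally every `f` has a root, since the Frobenius at `r` is
trivial in one of the fields.  The density follows from Halász's theorem.
-/

open Polynomial

namespace Pool.Agent.Results.MP_c1dca2_ag.LocallySolubleSuperelliptic

universe u v w x

section definitions

variable (k : Type u) (F : Type v) (Ω : Type w) [Field k] [Field F] [Field Ω] [Algebra k F]
  [Algebra F Ω] [Algebra k Ω]

/-- The inertia group of the valuation ring `W` of `Ω`, as a subgroup of `Gal(Ω/F)`: the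
automorphisms of `Ω` over `F` that map `W` onto itself and act as the identity on its residue
field. -/
noncomputable def inertia (W : ValuationSubring Ω) : Subgroup (Ω ≃ₐ[F] Ω) :=
  (W.inertiaSubgroup F).map (W.decompositionSubgroup F).subtype

/-- `F_U`, for a set `U` of valuation rings of `F`: the elements of `Ω` fixed by the inertia groups
of all valuation rings `W` of `Ω` with `W ∩ F ∈ U`.  If `Ω` is an algebraic closure of a field `F`
of characteristic zero, this is the maximal extension of `F` in `Ω` unramified over `U`. -/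
noncomputable def unramified (U : Set (ValuationSubring F)) : IntermediateField F Ω :=
  ⨅ W : {W : ValuationSubring Ω // W.comap (algebraMap F Ω) ∈ U},
    IntermediateField.fixedField (inertia F Ω W.1)

/-- The map `τ : M → M` acts as `σ : K → K` on the elements that the fields `K` and `M` have in
common when they are regarded as subfields of `Ω` through `i` and `j`. -/
def ActsAs {K M Ω : Type*} [Field K] [Field M] [Field Ω] (i : K →+* Ω) (j : M →+* Ω) (σ : K → K)
    (τ : M → M) : Prop :=
  ∀ c z, j z = i c → j (τ z) = i (σ c)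

/-- Let `k ⊆ K ⊆ Ω` and `F ⊆ M ⊆ Ω` be fields.  A splitting of `Gal(M/F) → Gal(K/k)`: a continuous
homomorphism `s` from `Gal(K/k)` to `Gal(M/F)` such that `s(σ)` acts as `σ` on the elements of
`K ∩ M`. -/
structure Splitting (K M : Type*) [Field K] [Field M] [Algebra k K] [Algebra F M] [Algebra K Ω]
    [Algebra M Ω] where
  /-- the homomorphism `Gal(K/k) → Gal(M/F)` -/
  toHom : (K ≃ₐ[k] K) →* (M ≃ₐ[F] M)
  cont : Continuous toHom
  compat : ∀ σ : K ≃ₐ[k] K, ActsAs (algebraMap K Ω) (algebraMap M Ω) σ (toHom σ)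

/-- The sections of `π₁(U) = Gal(F_U/F) → G_k`: the continuous homomorphisms `s` from
`G_k = Gal(k̄/k)` to `Gal(F_U/F)`, where `k̄` is the algebraic closure of `k` in `Ω`, such that
`s(σ)` acts as `σ` on the elements of `k̄`. -/
def GaloisSection (U : Set (ValuationSubring F)) : Type w :=
  Splitting k F Ω (algebraicClosure k Ω) (unramified F Ω U)

end definitions

section arithmetic

variable {ℓ p q : ℕ} [Fact p.Prime] [Fact q.Prime]

/-- The character `χ` as a function on `ℤ/p` with values in the additive group `ℤ/ℓ`, extended by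
`0` to zero. -/
noncomputable def index (χ : (ZMod p)ˣ →* Multiplicative (ZMod ℓ)) (x : ZMod p) : ZMod ℓ :=
  if h : x = 0 then 0 else (χ (Units.mk0 x h)).toAdd

/-- The characters `χ` modulo `p` and `ψ` modulo `q` are surjective, `p ≠ q`, the numbers `q` and
`-1` are `ℓ`-th powers modulo `p`, and `p` and `-1` are `ℓ`-th powers modulo `q`. -/
structure Admissible (χ : (ZMod p)ˣ →* Multiplicative (ZMod ℓ))
    (ψ : (ZMod q)ˣ →* Multiplicative (ZMod ℓ)) : Prop where
  ne : p ≠ q
  surjective_left : Function.Surjective χ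
  surjective_right : Function.Surjective ψ
  q_power : ∃ u : ZMod p, u ^ ℓ = q
  p_power : ∃ u : ZMod q, u ^ ℓ = p
  neg_power_left : ∃ u : ZMod p, u ^ ℓ = -1
  neg_power_right : ∃ u : ZMod q, u ^ ℓ = -1

/-- `χ(r)` if `ψ(r) = m χ(r)`, and `0` otherwise -/
noncomputable def weight (χ : (ZMod p)ˣ →* Multiplicative (ZMod ℓ))
    (ψ : (ZMod q)ˣ →* Multiplicative (ZMod ℓ)) (m : ZMod ℓ) (r : ℕ) : ZMod ℓ :=
  if index ψ (r : ZMod q) = m * index χ (r : ZMod p) then index χ (r : ZMod p) else 0

/-- `∑ v_r(b) χ(r)` over all primes `r` with `ψ(r) = m χ(r)`, as an element of `ℤ/ℓ` -/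
noncomputable def invariant (χ : (ZMod p)ˣ →* Multiplicative (ZMod ℓ))
    (ψ : (ZMod q)ˣ →* Multiplicative (ZMod ℓ)) (m : ZMod ℓ) (b : ℚ) : ZMod ℓ :=
  ∑ r ∈ (b.num.natAbs * b.den).primeFactors, (padicValRat r b : ZMod ℓ) * weight χ ψ m r

/-- One of the invariants with `m ≠ 0` of the norm of `a` from `k` to `ℚ` is not zero. -/
def Obstructed (χ : (ZMod p)ˣ →* Multiplicative (ZMod ℓ))
    (ψ : (ZMod q)ˣ →* Multiplicative (ZMod ℓ)) {k : Type u} [Field k] [NumberField k] (a : k) :
    Prop :=
  ∃ m : ZMod ℓ, m ≠ 0 ∧ invariant χ ψ m (Algebra.norm ℚ a) ≠ 0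

/-- The coefficients `(s, t)` of the characters `χ^s ψ^t`: the characters are `χ` and `χ^j ψ` for
`j ∈ ℤ/ℓ`. -/
def coefficients : Option (ZMod ℓ) → ZMod ℓ × ZMod ℓ
  | none => (1, 0)
  | some j => (j, 1)

/-- The automorphism `ζ ↦ ζ^n` of `ℚ(ζ_{pq})` fixes `θ` if and only if `χ(n)^s ψ(n)^t = 1`.  So `θ`
generates the fixed field of the kernel of the character `χ^s ψ^t`. -/
def IsGenerator (χ : (ZMod p)ˣ →* Multiplicative (ZMod ℓ))
    (ψ : (ZMod q)ˣ →* Multiplicative (ZMod ℓ)) (s t : ZMod ℓ) (θ : CyclotomicField (p * q) ℚ) :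
    Prop :=
  ∀ (σ : CyclotomicField (p * q) ℚ ≃ₐ[ℚ] CyclotomicField (p * q) ℚ) (n : ℕ),
    (∀ ζ, ζ ^ (p * q) = 1 → σ ζ = ζ ^ n) →
    (σ θ = θ ↔ s * index χ (n : ZMod p) + t * index ψ (n : ZMod q) = 0)

end arithmetic

/-- The polynomial `g` over `k` is monic, irreducible and not linear, and it has a root in
`k[x]/(P)`. -/
structure IsFactor {k : Type u} [Field k] [CharZero k] (P : ℚ[X]) (g : k[X]) : Prop where
  monic : g.Monic
  irreducible : Irreducible g
  not_linear : g.natDegree ≠ 1
  root : ∃ r : AdjoinRoot (P.map (algebraMap ℚ k)), aeval r g = 0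

/-- The curve `a y^n = f(x)` has a point over the extension `L` of `k`. -/
def HasPoint {k : Type u} [Field k] (a : k) (f : k[X]) (n : ℕ) (L : Type x) [Field L]
    [Algebra k L] : Prop :=
  ∃ x y : L, algebraMap k L a * y ^ n = aeval x f

/-- The curve `a y^n = f(x)` has a point over every extension of `k` that contains `ℝ` or one of the
fields `ℚ_r`; so it has points over all completions of a number field `k`. -/
def LocallySoluble {k : Type u} [Field k] (a : k) (f : k[X]) (n : ℕ) : Prop :=
  ∀ (L : Type x) [Field L] [Algebra k L],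
    (∃ (r : ℕ) (_ : Fact r.Prime), Nonempty (ℚ_[r] →+* L)) ∨ Nonempty (ℝ →+* L) →
      HasPoint a f n L

/-- Let `F` be any field over `k` that contains a point `(x, y)` of the curve `a y^n = f(x)` with
`y ≠ 0`, for instance the function field of the curve, and let `Ω` be an algebraic closure of `F`.
Then for every set `U` of valuation rings of `F` over `k` that contain `x` there is no section of
`π₁(U) → G_k`.  If `F` is the function field of the curve, such `U` are given by all open subcurves
of the affine curve `a y^n = f(x)`. -/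
def AffineNoSection {k : Type u} [Field k] (a : k) (f : k[X]) (n : ℕ) : Prop :=
  ∀ (F : Type v) (Ω : Type w) [Field F] [Field Ω] [Algebra k F] [Algebra F Ω] [Algebra k Ω]
    [IsScalarTower k F Ω] [IsAlgClosure F Ω] (x y : F) (U : Set (ValuationSubring F)),
    y ≠ 0 → algebraMap k F a * y ^ n = aeval x f →
    (∀ O ∈ U, x ∈ O ∧ ∀ c : k, algebraMap k F c ∈ O) → IsEmpty (GaloisSection k F Ω U)

/-- The same for all sets `U` of valuation rings of `F` over `k`.  If `F` is the function field of
the curve, such `U` are given by all open subcurves of the smooth projective curve, including the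
projective curve itself. -/
def ProjectiveNoSection {k : Type u} [Field k] (a : k) (f : k[X]) (n : ℕ) : Prop :=
  ∀ (F : Type v) (Ω : Type w) [Field F] [Field Ω] [Algebra k F] [Algebra F Ω] [Algebra k Ω]
    [IsScalarTower k F Ω] [IsAlgClosure F Ω] (x y : F) (U : Set (ValuationSubring F)),
    y ≠ 0 → algebraMap k F a * y ^ n = aeval x f →
    (∀ O ∈ U, ∀ c : k, algebraMap k F c ∈ O) → IsEmpty (GaloisSection k F Ω U)

/-- Let `ℓ`, `p`, `q` be primes, `(χ, ψ)` admissible, `θ_i` generators of the `ℓ + 1` cyclic fields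
of the characters `χ`, `χ^j ψ`, and `P_i` their minimal polynomials.  Let `k` be a number field,
`a ∈ k` obstructed, `G_i` finite nonempty sets of monic irreducible nonlinear polynomials over `k`
with a root in `k[x]/(P_i)`, and `f` the product of all elements of the sets `G_i`.  Let `n > 0` be
divisible by `ℓ`.

* `f` is separable of degree `ℓ ∑ |G_i|`;
* the curve `a y^n = f(x)` has points over all completions of `k`.

Let `L` be a finite extension of `k` of degree prime to `ℓ`, for instance `L = k`.

* The curve has no point over `L`, and neither has its smooth projective model, since `a` is not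
  an `ℓ`-th power in `L`;
* over `L` there is no section of `π₁(U) → G_L` for the affine curve `a y^n = f(x)`;
* the same holds for the smooth projective curve if `ℓ` divides all `|G_i|`.

For every prime `ℓ` there are admissible pairs with arbitrarily large `p`, `q`; there are always
generators `θ_i`; if some `a ∈ k` is obstructed then the polynomials `P_i(x - j)`, `j ∈ k`, can be
taken as factors; and if `ℓ` does not divide the degree of `k`, then the natural numbers `b` that
are not obstructed over `k` have the density `ℓ^{-(ℓ-1)}`. -/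
theorem result :
    (∀ (ℓ p q : ℕ) [Fact ℓ.Prime] [Fact p.Prime] [Fact q.Prime]
        (χ : (ZMod p)ˣ →* Multiplicative (ZMod ℓ)) (ψ : (ZMod q)ˣ →* Multiplicative (ZMod ℓ))
        (θ : Option (ZMod ℓ) → CyclotomicField (p * q) ℚ) (k : Type u) [Field k] [NumberField k]
        (a : k) (G : Option (ZMod ℓ) → Finset k[X]) (n : ℕ) (f : k[X]), Admissible χ ψ →
      (∀ i, IsGenerator χ ψ (coefficients i).1 (coefficients i).2 (θ i)) → Obstructed χ ψ a →
      (∀ i, (G i).Nonempty) → (∀ i, ∀ g ∈ G i, IsFactor (minpoly ℚ (θ i)) g) → 0 < n → ℓ ∣ n →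
      f = ∏ i, ∏ g ∈ G i, g →
      f.Separable ∧ f.natDegree = ℓ * ∑ i, (G i).card ∧ LocallySoluble.{u, x} a f n ∧
      ∀ (L : Type u) [Field L] [NumberField L] [Algebra k L], ¬ ℓ ∣ Module.finrank k L →
        ¬ HasPoint a f n L ∧ (∀ ρ : L, ρ ^ ℓ ≠ algebraMap k L a) ∧
        AffineNoSection.{u, v, w} (algebraMap k L a) (f.map (algebraMap k L)) n ∧
        ((∀ i, ℓ ∣ (G i).card) →
          ProjectiveNoSection.{u, v, w} (algebraMap k L a) (f.map (algebraMap k L)) n)) ∧
    (∀ (ℓ : ℕ) [Fact ℓ.Prime] (B : ℕ), ∃ (p q : ℕ) (_ : Fact p.Prime) (_ : Fact q.Prime)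
      (χ : (ZMod p)ˣ →* Multiplicative (ZMod ℓ)) (ψ : (ZMod q)ˣ →* Multiplicative (ZMod ℓ)),
      B < p ∧ B < q ∧ Admissible χ ψ) ∧
    ∀ (ℓ p q : ℕ) [Fact ℓ.Prime] [Fact p.Prime] [Fact q.Prime]
      (χ : (ZMod p)ˣ →* Multiplicative (ZMod ℓ)) (ψ : (ZMod q)ˣ →* Multiplicative (ZMod ℓ)),
      Admissible χ ψ →
      (∃ θ : Option (ZMod ℓ) → CyclotomicField (p * q) ℚ,
        ∀ i, IsGenerator χ ψ (coefficients i).1 (coefficients i).2 (θ i)) ∧
      ∀ (k : Type u) [Field k] [NumberField k],
        (∀ (θ : Option (ZMod ℓ) → CyclotomicField (p * q) ℚ) (a : k),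
          (∀ i, IsGenerator χ ψ (coefficients i).1 (coefficients i).2 (θ i)) →
          Obstructed χ ψ a → ∀ (i : Option (ZMod ℓ)) (j : k), IsFactor (minpoly ℚ (θ i))
            (((minpoly ℚ (θ i)).map (algebraMap ℚ k)).comp (X - C j))) ∧
        (¬ ℓ ∣ Module.finrank ℚ k →
          Filter.Tendsto (fun N : ℕ =>
            (Nat.card {b : ℕ // 1 ≤ b ∧ b ≤ N ∧ ¬ Obstructed χ ψ (b : k)} : ℝ) / (N : ℝ))
            Filter.atTop (nhds ((ℓ : ℝ) ^ (ℓ - 1))⁻¹)) := by
  have hgood : ∀ (ℓ p q : ℕ) [Fact ℓ.Prime] [Fact p.Prime] [Fact q.Prime]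
      (χ : (ZMod p)ˣ →* Multiplicative (ZMod ℓ)) (ψ : (ZMod q)ˣ →* Multiplicative (ZMod ℓ)),
      Admissible χ ψ → Pool.Agent.K3h48.MN.Good χ ψ := by
    intro ℓ p q _ _ _ χ ψ h
    exact ⟨h.ne, h.surjective_left, h.surjective_right,
      Pool.Agent.K3h48.MN.ind_pow_zero χ h.q_power, Pool.Agent.K3h48.MN.ind_pow_zero ψ h.p_power,
      Pool.Agent.K3h48.MN.ind_pow_zero χ h.neg_power_left,
      Pool.Agent.K3h48.MN.ind_pow_zero ψ h.neg_power_right⟩
  refine ⟨?_, ?_, ?_⟩
  · intro ℓ p q _ _ _ χ ψ θ k _ _ a G n f hadm hθ ha hne hGf hn hℓn hf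
    subst hf
    have hG := hgood ℓ p q χ ψ hadm
    have hθ' : ∀ i, Pool.Agent.K3h48.MN.GenBy χ ψ (Pool.Agent.K3h48.MN.cs i).1
        (Pool.Agent.K3h48.MN.cs i).2 (θ i) := by
      intro i
      cases i with
      | none => exact hθ none
      | some j => exact hθ (some j)
    have hGf' : ∀ i, ∀ g ∈ G i, Pool.Agent.K3h48.MN.IsFactor (minpoly ℚ (θ i)) g := fun i g hg =>
      ⟨(hGf i g hg).monic, (hGf i g hg).irreducible, (hGf i g hg).not_linear,
        (hGf i g hg).root⟩
    have ha' : Pool.Agent.K3h48.MN.Obs χ ψ a := ha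
    obtain ⟨hsep, hdeg⟩ := Pool.Agent.K3h48.MN.final_separable hG hθ' ha' G hGf'
    refine ⟨hsep, hdeg, ?_, ?_⟩
    · intro L _ _ hL
      obtain ⟨x, hx⟩ := Pool.Agent.K3h48.MN.final_local hG hθ' G hGf' hne hL
      refine ⟨x, 0, ?_⟩
      rw [hx, zero_pow hn.ne', mul_zero]
    · intro L _ _ _ hL
      have haL := ha'.ext L hL
      refine ⟨?_, ?_, ?_, ?_⟩
      · rintro ⟨x, y, h⟩
        refine Pool.Agent.K3h48.MN.ext_no_points hG hθ' ha' G hGf' hℓn hL x y ?_
        rw [h, eval_map_algebraMap]
      · intro ρ h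
        have h0 : algebraMap k L a ≠ 0 := haL.ne_zero
        have hρ : ρ ≠ 0 := by
          rintro rfl
          rw [zero_pow (Fact.out : ℓ.Prime).ne_zero] at h
          exact h0 h.symm
        refine Pool.Agent.K3h48.MN.final_no_infinity hG hθ' haL ρ⁻¹ ?_
        rw [inv_pow, h, mul_inv_cancel₀ h0]
      · intro F Ω _ _ _ _ _ _ _ x y U hy hxy hU
        have h1 : IsAlgClosed Ω := IsAlgClosure.isAlgClosed F
        have h2 : Algebra.IsAlgebraic F Ω := IsAlgClosure.isAlgebraic
        have h3 := Pool.Agent.K3h48.MN.ext_no_section (F := F) (Ω := Ω) hG hθ' ha' G hGf' hℓn hL x y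
          hy hxy U (fun O hO => (hU O hO).2) (Or.inr fun O hO => (hU O hO).1)
        exact ⟨fun s => h3.false ⟨s.toHom, s.cont, s.compat⟩⟩
      · intro hcard F Ω _ _ _ _ _ _ _ x y U hy hxy hU
        have h1 : IsAlgClosed Ω := IsAlgClosure.isAlgClosed F
        have h2 : Algebra.IsAlgebraic F Ω := IsAlgClosure.isAlgebraic
        have h3 := Pool.Agent.K3h48.MN.ext_no_section (F := F) (Ω := Ω) hG hθ' ha' G hGf' hℓn hL x y
          hy hxy U hU (Or.inl hcard)
        exact ⟨fun s => h3.false ⟨s.toHom, s.cont, s.compat⟩⟩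
  · intro ℓ _ B
    have hℓ : ℓ.Prime := Fact.out
    obtain ⟨p, hp, hBp, hp1⟩ := Nat.exists_prime_gt_modEq_one (k := 2 * ℓ) B
      (mul_ne_zero two_ne_zero hℓ.ne_zero)
    obtain ⟨q, hq, hqB, hq1, hqp, hpow⟩ := Pool.Agent.K3h48.MN.exists_q hℓ.pos hp (max B p)
    haveI : Fact p.Prime := ⟨hp⟩
    haveI : Fact q.Prime := ⟨hq⟩
    have hd : ∀ r : ℕ, r.Prime → r ≡ 1 [MOD 2 * ℓ] → 2 * ℓ ∣ r - 1 := fun r hr h =>
      (Nat.modEq_iff_dvd' hr.one_lt.le).1 h.symm
    obtain ⟨χ, hχ⟩ := Pool.Agent.K3h48.MN.exists_char (ℓ := ℓ) (p := p)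
      ((Dvd.intro_left 2 rfl).trans (hd p hp hp1))
    obtain ⟨ψ, hψ⟩ := Pool.Agent.K3h48.MN.exists_char (ℓ := ℓ) (p := q)
      ((Dvd.intro_left 2 rfl).trans (hd q hq hq1))
    have hBq : B < q := lt_of_le_of_lt (le_max_left _ _) hqB
    have hpq : p < q := lt_of_le_of_lt (le_max_right _ _) hqB
    refine ⟨p, q, ⟨hp⟩, ⟨hq⟩, χ, ψ, hBp, hBq, hpq.ne, hχ, hψ, ⟨1, ?_⟩, hpow,
      Pool.Agent.K3h48.MN.neg_one_pow hℓ.pos (hd p hp hp1),
      Pool.Agent.K3h48.MN.neg_one_pow hℓ.pos (hd q hq hq1)⟩
    rw [one_pow, (ZMod.natCast_eq_natCast_iff _ _ _).2 hqp, Nat.cast_one]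
  · intro ℓ p q _ _ _ χ ψ hadm
    have hG := hgood ℓ p q χ ψ hadm
    refine ⟨?_, ?_⟩
    · have h1 := fun i : Option (ZMod ℓ) => Pool.Agent.K3h48.MN.exists_gen χ ψ
        (coefficients i).1 (coefficients i).2
      choose θ hθ using h1
      exact ⟨θ, hθ⟩
    · intro k _ _
      refine ⟨?_, fun h => Pool.Agent.K3h48.MN.obs_density hG h⟩
      intro θ a hθ ha i j
      have hθ' : ∀ i, Pool.Agent.K3h48.MN.GenBy χ ψ (Pool.Agent.K3h48.MN.cs i).1
          (Pool.Agent.K3h48.MN.cs i).2 (θ i) := by
        intro i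
        cases i with
        | none => exact hθ none
        | some j => exact hθ (some j)
      have ha' : Pool.Agent.K3h48.MN.Obs χ ψ a := ha
      have h1 := Pool.Agent.K3h48.MN.translate hG hθ' ha' i j
      exact ⟨h1.monic, h1.irreducible, h1.not_linear, h1.root⟩

end Pool.Agent.Results.MP_c1dca2_ag.LocallySolubleSuperelliptic
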