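import Pool.Agent.TH120.Sec.Split
import Pool.Agent.K3h23.GF.Dens

/-!
# Points and sections over all finite extensions for 100% of the superelliptic curves

Let `k` be any number field, or any field finitely generated over `ℚ`, that is, the fraction field of a
domain `R` of characteristic zero that is finitely generated as a ring (for number fields one can take
for `R` the ring of integers).  Let `d ≥ 3`, and for
`(a, c₀, …, c_d) ∈ R^(d+2)` and `n ≥ 1` let `X_n` be the smooth projective curve over `k` with the affine
equation

  `a yⁿ = f(x)`,  `f = c₀ + c₁ x + … + c_d x^d`,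

where all coefficients vary.  It has points of degree dividing `M = gcd(n, d)` at infinity and points of
degree dividing `d` with `y = 0`.  We prove that for 100% of all `(a, c₀, …, c_d)` the following is true
for all `n` and all finite extensions `L` of `k` at once.

* If `X_n` has a point over `L`, then `M` divides `[L : k]`.  So the index of `X_n`, the greatest common
  divisor of the degrees of its points, is `M`.
* If the fundamental group of `X_n` over `L`, or of one of its open subcurves, or of a smooth curve over
  `L` which dominates one of them, has a section over `G_L`, then `M` divides `[L : k]`, or at least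
  `M / 2` divides `[L : k]` if `4 ∣ M` and `d / M` is odd.

For `L = k` and `M > 1` this is the section conjecture for the curves `X_n`, the starting result
`Pool.Agent.Results.MP_e66f84_ag.SuperellipticFamilies`.  Here all finite extensions `L` of `k` are
treated at once, for one set of exceptional vectors of density zero.  If `M` is not divisible by `4` or
`d / M` is even, then the greatest common divisor of the degrees of the fields `L` over which `X_n` has
sections is the same as for points, namely `M`, as it is predicted by the section conjecture.  For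
example, 100% of all hyperelliptic curves `a y² = f(x)`, `deg f = 2 g + 2`, have no sections over any
extension of `k` of odd degree.

The set of the exceptional vectors has density zero in a strong sense: for every `ε > 0` there is an
ideal `I` of `R` of finite index such that the exceptional vectors lie in at most `ε #(R/I)^(d+2)`
residue classes modulo `I`.

The fundamental group is described through valuations.  Let `U` be a smooth geometrically connected
curve over `L` with function field `F`, let `Ω` be an algebraic closure of `F`, and let `F_U` be the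
maximal extension of `F` inside `Ω` which is unramified over the closed points of `U`, that is, over
their local rings, which are valuation rings of `F`.  Then `π₁(U) = Gal(F_U/F)`, and the map
`π₁(U) → G_L` is the restriction of automorphisms to the algebraic closure of `L` in `Ω`.

Proof.  As in `SuperellipticFamilies` one finds, for all vectors outside a set of density zero, a discrete
valuation of `k` with finite residue field, of residue characteristic different from `2`, for which
`c₀, …, c_d` are integral, `f` is irreducible of degree `d` modulo the maximal ideal and `a` has valuation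
one.  Now let `L` be a finite extension of `k` and `l` a prime number such that
`v_l([L : k]) < v_l(M)`.  There is an extension of the valuation to `L` with ramification index `e` and
residue degree `r` such that `v_l(e r) ≤ v_l([L : k])`.  The irreducible factors of `f` over the residue
field have degree `d / gcd(d, r)`, so there are no roots, all values of `f` have a valuation divisible by
`d`, and the valuation of `a` is `e`, which is not divisible by `M`.  So there is no point.  For sections
and odd `l` we use the local theorem `Pool.Agent.TH377.LocG.local_U`, which is based on the Kummer theory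
of the functions `(x - θ)/(x - θ')`, where `θ`, `θ'` are roots of `f`.  It is also used for `l = 2` and
even `e`, where it loses a factor `2`.  For `l = 2` and odd `e` we use the local theorem for hyperelliptic
curves of `Pool.Agent.Results.MP_2f3286_ag.QuadraticTwists`.
-/

set_option autoImplicit false

open Polynomial

namespace Pool.Agent.Results.MP_c1dca2_ag.SuperellipticIndex

universe v w y

section definitions

variable (k : Type y) (F : Type v) (Ω : Type w) [Field k] [Field F] [Field Ω] [Algebra k F]
  [Algebra F Ω] [Algebra k Ω]

/-- The inertia group of the valuation ring `W` of `Ω`, as a subgroup of `Gal(Ω/F)`: the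
automorphisms of `Ω` over `F` that map `W` onto itself and act as the identity on its residue
field. -/
noncomputable def inertia (W : ValuationSubring Ω) : Subgroup (Ω ≃ₐ[F] Ω) :=
  (W.inertiaSubgroup F).map (W.decompositionSubgroup F).subtype

/-- `F_U`, for a set `U` of valuation rings of `F`: the elements of `Ω` fixed by the inertia groups
of all valuation rings `W` of `Ω` with `W ∩ F ∈ U`.  If `Ω` is an algebraic closure of a field `F`
of characteristic zero, this is the maximal extension of `F` in `Ω` unramified over `U`. -/
noncomputable def unramified (U : Set (ValuationSubring F)) : IntermediateField F Ω :=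
  ⨅ W : {W : ValuationSubring Ω // W.comap (algebraMap F Ω) ∈ U},
    IntermediateField.fixedField (inertia F Ω W.1)

/-- The map `τ : M → M` acts as `σ : K → K` on the elements that the fields `K` and `M` have in
common when they are regarded as subfields of `Ω` through `i` and `j`. -/
def ActsAs {K M Ω : Type*} [Field K] [Field M] [Field Ω] (i : K →+* Ω) (j : M →+* Ω) (σ : K → K)
    (τ : M → M) : Prop :=
  ∀ c z, j z = i c → j (τ z) = i (σ c)

/-- Let `k ⊆ K ⊆ Ω` and `F ⊆ M ⊆ Ω` be fields.  A splitting of `Gal(M/F) → Gal(K/k)`: a continuous
homomorphism `s` from `Gal(K/k)` to `Gal(M/F)` such that `s(σ)` acts as `σ` on the elements of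
`K ∩ M`. -/
structure Splitting (K M : Type*) [Field K] [Field M] [Algebra k K] [Algebra F M] [Algebra K Ω]
    [Algebra M Ω] where
  /-- the homomorphism `Gal(K/k) → Gal(M/F)` -/
  toHom : (K ≃ₐ[k] K) →* (M ≃ₐ[F] M)
  cont : Continuous toHom
  compat : ∀ σ : K ≃ₐ[k] K, ActsAs (algebraMap K Ω) (algebraMap M Ω) σ (toHom σ)

/-- The sections of `π₁(U) = Gal(F_U/F) → G_k`: the continuous homomorphisms `s` from
`G_k = Gal(k̄/k)` to `Gal(F_U/F)`, where `k̄` is the algebraic closure of `k` in `Ω`, such that
`s(σ)` acts as `σ` on the elements of `k̄`. -/
def GaloisSection (U : Set (ValuationSubring F)) : Type w :=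
  Splitting k F Ω (algebraicClosure k Ω) (unramified F Ω U)

end definitions

section curve

variable (L : Type y) [Field L]

/-- The smooth projective curve over `L` with the affine equation `a yⁿ = f(x)` has no point over
`L`: neither in the affine part nor at infinity.  (Its points at infinity over `L` correspond to the
`r ∈ L` such that `a r ^ gcd(n, deg f)` is the leading coefficient of `f`.) -/
def NoPoint (n : ℕ) (a : L) (f : L[X]) : Prop :=
  (¬ ∃ x y : L, a * y ^ n = f.eval x) ∧
    ¬ ∃ r : L, a * r ^ Nat.gcd n f.natDegree = f.leadingCoeff

/-- Let `F` be any field over `L` that contains a point `(x, y)` of the curve `a yⁿ = f(x)`, for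
instance the function field of the curve, and let `Ω` be an algebraic closure of `F`.  Then for
every set `U` of valuation rings of `F` over `L` there is no section of `π₁(U) → G_L`.  If `F` is the
function field of the curve, such `U` are given by the smooth projective curve and by all its open
subcurves. -/
def NoSection (n : ℕ) (a : L) (f : L[X]) : Prop :=
  ∀ (F : Type v) (Ω : Type w) [Field F] [Field Ω] [Algebra L F] [Algebra F Ω] [Algebra L Ω]
    [IsScalarTower L F Ω] [IsAlgClosure F Ω] (x y : F) (U : Set (ValuationSubring F)),
    algebraMap L F a * y ^ n = aeval x f → (∀ O ∈ U, ∀ z : L, algebraMap L F z ∈ O) →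
      IsEmpty (GaloisSection L F Ω U)

end curve

/-- The number `M = gcd(n, d)`, or `M / 2` if `M` is divisible by `4` and `2 M` does not divide `d`. -/
def sectionIndex (n d : ℕ) : ℕ :=
  if 4 ∣ Nat.gcd n d ∧ ¬ 2 * Nat.gcd n d ∣ d then Nat.gcd n d / 2 else Nat.gcd n d

/-- The polynomial `c₁ + c₂ x + … + c_{d+1} x^d` over `L`, for a vector `(c₀, …, c_{d+1})` of elements
of `R`. -/
noncomputable def poly {R : Type} [CommRing R] (L : Type y) [Field L] [Algebra R L] {d : ℕ}
    (c : Fin (d + 2) → R) : L[X] :=
  ∑ i : Fin (d + 1), C (algebraMap R L (c i.succ)) * X ^ (i : ℕ)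

/-- The vectors `c = (a, c₀, …, c_d)` of elements of `R` that do not have the following property:
`a ≠ 0`, the polynomial `f = c₀ + … + c_d x^d` is irreducible of degree `d` over `k`, and for all finite
extensions `L` of `k` and all `n ≥ 1`: if `gcd(n, d)` does not divide `[L : k]`, the curve `a yⁿ = f(x)`
has no point over `L`; if `sectionIndex n d` does not divide `[L : k]`, it has no section over `L`. -/
def Exceptional (R : Type) [CommRing R] (k : Type) [Field k] [Algebra R k] (d : ℕ) :
    Set (Fin (d + 2) → R) :=
  {c | ¬ (algebraMap R k (c 0) ≠ 0 ∧ (poly k c).natDegree = d ∧ Irreducible (poly k c) ∧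
    ∀ (L : Type y) [Field L] [Algebra k L] [Algebra R L] [IsScalarTower R k L]
      [FiniteDimensional k L] (n : ℕ), 0 < n →
      (¬ Nat.gcd n d ∣ Module.finrank k L → NoPoint L n (algebraMap R L (c 0)) (poly L c)) ∧
      (¬ sectionIndex n d ∣ Module.finrank k L →
        NoSection.{v, w} L n (algebraMap R L (c 0)) (poly L c)))}

/-- Density zero: for every `ε > 0` there is an ideal `I` of `R` of finite index such that `E` lies
in at most `ε #(R/I)ᴺ` residue classes modulo `I`. -/
def DensityZero {R : Type} [CommRing R] {N : ℕ} (E : Set (Fin N → R)) : Prop :=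
  ∀ ε : ℝ, 0 < ε → ∃ I : Ideal R, Finite (R ⧸ I) ∧
    (Set.ncard ((fun (t : Fin N → R) i => Ideal.Quotient.mk I (t i)) '' E) : ℝ) ≤
      ε * (Nat.card (R ⧸ I) : ℝ) ^ N

section proof

lemma toSec {k : Type y} {F : Type v} {Ω : Type w} [Field k] [Field F] [Field Ω] [Algebra k F]
    [Algebra F Ω] [Algebra k Ω] (U : Set (ValuationSubring F))
    (h : IsEmpty (Pool.Agent.W620.SC.GSection k F Ω U)) : IsEmpty (GaloisSection k F Ω U) :=
  ⟨fun s => h.false ⟨s.toHom, s.cont, s.compat⟩⟩

/-- the property of the vectors -/
def GoodS (R : Type) [CommRing R] (k : Type) [Field k] [Algebra R k] (d : ℕ) (c : Fin (d + 2) → R) :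
    Prop :=
  algebraMap R k (c 0) ≠ 0 ∧ algebraMap R k (c (Fin.last d).succ) ≠ 0 ∧
    Pool.Agent.K3h23.GF.Data k (algebraMap R k (c 0)) (poly k c)

lemma irr_of_data {k : Type*} [Field k] (a : k) (g : k[X])
    (h : Pool.Agent.K3h23.GF.Data k a g) : Irreducible g := by
  obtain ⟨A, _, _, _, _, _, f, -, -, hfg, hlc, hirr, -⟩ := h
  obtain ⟨u, hu⟩ := hlc
  have hmon : (C ((u⁻¹ : Aˣ) : A) * f).Monic := by
    rw [Monic, leadingCoeff_mul, leadingCoeff_C, ← hu, Units.inv_mul]
  have h4 : Irreducible (C ((u⁻¹ : Aˣ) : A) * f) := by
    refine hmon.irreducible_of_irreducible_map (IsLocalRing.residue A) _ ?_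
    rw [Polynomial.map_mul, map_C]
    exact (irreducible_isUnit_mul (isUnit_C.2 ((u⁻¹).isUnit.map _))).2 hirr
  have h5 := (hmon.irreducible_iff_irreducible_map_fraction_map (K := k)).1 h4
  rw [Polynomial.map_mul, map_C, hfg] at h5
  exact (irreducible_isUnit_mul (isUnit_C.2 ((u⁻¹).isUnit.map _))).1 h5

lemma of_good {R : Type} [CommRing R] {k : Type} [Field k] [CharZero k] [Algebra R k] (d : ℕ)
    (hd3 : 3 ≤ d) (c : Fin (d + 2) → R) (hc : GoodS R k d c) (L : Type y) [Field L] [Algebra k L]
    [Algebra R L] [IsScalarTower R k L] [FiniteDimensional k L] (n : ℕ) (hn : 0 < n) :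
    (¬ Nat.gcd n d ∣ Module.finrank k L → NoPoint L n (algebraMap R L (c 0)) (poly L c)) ∧
      (¬ sectionIndex n d ∣ Module.finrank k L →
        NoSection.{v, w} L n (algebraMap R L (c 0)) (poly L c)) := by
  obtain ⟨h0, h1, hd⟩ := hc
  have hR : ∀ r : R, algebraMap R L r = algebraMap k L (algebraMap R k r) := fun r =>
    IsScalarTower.algebraMap_apply R k L r
  have e1 : (poly k c).natDegree = d := Pool.Agent.TH377.Sup.pol_natDegree _ h1
  have e2 : poly L c = (poly k c).map (algebraMap k L) := by
    unfold poly
    rw [Polynomial.map_sum]
    refine Finset.sum_congr rfl fun i _ => ?_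
    rw [Polynomial.map_mul, Polynomial.map_pow, map_C, map_X, hR]
  have e3 : (poly L c).natDegree = d := by rw [e2, natDegree_map, e1]
  refine ⟨fun hL => ?_, fun hL => ?_⟩
  · obtain ⟨p1, p2⟩ := Pool.Agent.K3h23.GF.points_L (L := L) _ _ hd n hn (by rwa [e1])
    refine ⟨?_, ?_⟩
    · rintro ⟨x, y, hxy⟩
      exact p1 ⟨x, y, by rw [← e2, ← hR]; exact hxy⟩
    · rintro ⟨r, hr⟩
      refine p2 ⟨r, ?_⟩
      rw [← hR, e1, ← leadingCoeff_map (algebraMap k L), ← e2]
      rw [e3] at hr
      exact hr
  · intro F Ω _ _ _ _ _ _ _ x y U hxy hU
    have hcl : IsAlgClosed Ω := IsAlgClosure.isAlgClosed F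
    have halg : Algebra.IsAlgebraic F Ω := IsAlgClosure.isAlgebraic
    refine toSec U (Pool.Agent.K3h23.GF.sections_L (L := L) _ _ hd (by rw [e1]; exact hd3) n hn
      (by rw [e1]; exact hL) U hU x y ?_)
    rw [← hR, ← e2]
    exact hxy

end proof

/-- Let `R` be a domain of characteristic zero that is finitely generated as a ring, with fraction
field `k`; so `k` is any field finitely generated over `ℚ`.  Let `d ≥ 3`.  For all vectors
`(a, c₀, …, c_d)` of elements of `R` outside a set of density zero, the polynomial
`f = c₀ + … + c_d x^d` is irreducible of degree `d` over `k`, and for all finite extensions `L` of `k` and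
all `n ≥ 1`, if the smooth projective curve with the affine equation `a yⁿ = f(x)` has a point over `L`,
then `M = gcd(n, d)` divides `[L : k]`; if the fundamental group of one of its open subcurves over `L`,
or of a smooth curve over `L` which dominates it, has a section over `G_L`, then `M` divides `[L : k]`,
except that it may be only `M / 2` which divides `[L : k]` if `4 ∣ M` and `d / M` is odd. -/
theorem result (R : Type) [CommRing R] [IsDomain R] [CharZero R] [Algebra.FiniteType ℤ R]
    (k : Type) [Field k] [Algebra R k] [IsFractionRing R k] (d : ℕ) (hd : 3 ≤ d) :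
    DensityZero (Exceptional.{v, w, y} R k d) := by
  classical
  have hcz : CharZero k := charZero_of_injective_algebraMap (IsFractionRing.injective R k)
  have hdr : (0 : ℝ) < d := by
    have : 0 < d := by omega
    exact_mod_cast this
  have hδ1 : (1 / (4 * d) : ℝ) ≤ 1 := by
    rw [div_le_one (by positivity)]
    have : (3 : ℝ) ≤ d := by exact_mod_cast hd
    linarith
  intro ε hε
  obtain ⟨I, hI, hle⟩ := Pool.Agent.K3h23.GF.density_all (R := R) (k := k) (d + 2)
    (fun {L} _ _ v => Pool.Agent.TH377.Sup.GoodV v d)
    (fun {L} _ _ v => True) (1 / (4 * d) : ℝ)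
    (fun L _ _ D hD ε hε => by
      obtain ⟨T, hT, hTε⟩ := Pool.Agent.TH120.Sec.supply_split 2 Nat.prime_two D hD
        (1 / (4 * d) : ℝ) (by positivity) hδ1 ε hε
      exact ⟨T, fun v hv => ⟨(hT v hv).1, trivial⟩, hTε⟩)
    (fun L _ _ v _ => Pool.Agent.TH377.Sup.badV_card v d hd)
    (GoodS R k d)
    (by
      intro L _ _ v _ h2 P hint ψ hψ c y hcy hy
      obtain ⟨g1, g2, g3⟩ := Pool.Agent.TH377.Sup.good_iff v d y hy
      exact Pool.Agent.K3h23.GF.data_embR v P ψ hint hψ h2 c y hcy g1 g2 g3)
    ε hε
  refine ⟨I, hI, le_trans ?_ hle⟩
  have hsub : (Exceptional.{v, w, y} R k d : Set (Fin (d + 2) → R)) ⊆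
      {c : Fin (d + 2) → R | ¬ GoodS R k d c} := by
    intro c hc hgood
    apply hc
    refine ⟨hgood.1, Pool.Agent.TH377.Sup.pol_natDegree _ hgood.2.1, irr_of_data _ _ hgood.2.2, ?_⟩
    intro L _ _ _ _ _ n hn
    exact of_good d hd c hgood L n hn
  exact_mod_cast Set.ncard_le_ncard (Set.image_mono hsub) (Set.toFinite _)

end Pool.Agent.Results.MP_c1dca2_ag.SuperellipticIndex
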